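import Mathlib

/-!
# Algorithms for matrix multiplication and their products: definitions
-/

namespace Pool.Agent.H429R4.MM

open MvPolynomial

/-- The variables of two matrices whose rows and columns are indexed by `M`: `inl (p, k)` is the
entry `(p, k)` of the first matrix, `inr (k, q)` is the entry `(k, q)` of the second one. -/
abbrev Va (M : Type) : Type := (M × M) ⊕ (M × M)

/-- The map of the variables given by maps `f` of the rows of the first matrix, `g` of the columns
of the first and rows of the second matrix, and `h` of the columns of the second matrix. -/
def sand {M : Type} (f g h : M → M) : Va M → Va M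
  | .inl (p, k) => .inl (f p, g k)
  | .inr (k, q) => .inr (g k, h q)

/-- The entry `(p, q)` of the product of the two matrices. -/
noncomputable def prodEntry (F : Type) [Field F] {M : Type} [Fintype M] (p q : M) :
    MvPolynomial (Va M) F :=
  ∑ k, X (Sum.inl (p, k)) * X (Sum.inr (k, q))

/-- An algorithm over the field `F` with inputs indexed by `V` and products indexed by `G`. The
factors `left g` and `right g` of the product `g` are arbitrary linear combinations of `1`, the
variables and the products of smaller rank. -/
structure Algo (V F G : Type) [Field F] where
  left : G → MvPolynomial V F
  right : G → MvPolynomial V F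
  rank : G → ℕ
  left_mem : ∀ g, left g ∈ Submodule.span F
    ({1} ∪ Set.range X ∪ {P | ∃ h, rank h < rank g ∧ P = left h * right h})
  right_mem : ∀ g, right g ∈ Submodule.span F
    ({1} ∪ Set.range X ∪ {P | ∃ h, rank h < rank g ∧ P = left h * right h})

/-- The algorithm multiplies the two matrices: every entry of the product is a linear combination
of `1`, the variables and the products. -/
def Algo.Multiplies {M F G : Type} [Field F] [Fintype M] (C : Algo (Va M) F G) : Prop :=
  ∀ p q : M, prodEntry F p q ∈ Submodule.span F
    ({1} ∪ Set.range X ∪ {P | ∃ h, P = C.left h * C.right h})

/-- The transforms of the products of the algorithm under the maps `f ∈ A` of the variables: the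
unordered pairs of the transforms of the two factors. -/
def Algo.products {V F G : Type} [Field F] (C : Algo V F G) (A : Set (V → V)) :
    Set (Sym2 (MvPolynomial V F)) :=
  {e | ∃ f ∈ A, ∃ g, e = s(rename f (C.left g), rename f (C.right g))}

/-- The index set of the rows and columns: `r` triples of blocks of size `s`, and a rest `Z`. -/
abbrev Ix (r s : ℕ) (Z : Type) : Type := (Fin r × ZMod 3 × Fin s) ⊕ Z

/-- The permutation of the index set that shifts the three blocks of the `v`-th triple cyclically
by `x v`. -/
def shift {r s : ℕ} {Z : Type} (x : Fin r → ZMod 3) : Ix r s Z → Ix r s Z
  | .inl (v, c, i) => .inl (v, c + x v, i)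
  | .inr z => .inr z

/-- The maps of the variables given by permutations of the rows of the first matrix, of the columns
of the first and rows of the second matrix, and of the columns of the second matrix. -/
def relabelings (M : Type) : Set (Va M → Va M) :=
  {f | ∃ π ρ σ : Equiv.Perm M, f = sand π ρ σ}

end Pool.Agent.H429R4.MM
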