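import Pool.Agent.H429R4.MM.Lower

/-!
# A small group of relabelings
-/

namespace Pool.Agent.H429R4.MM

open MvPolynomial Finset

/-- vectors over `ZMod 3` -/
abbrev Vec (κ : ℕ) : Type := Fin κ → ZMod 3

theorem exists_columns (r : ℕ) (hr : 1 ≤ r) : ∃ κ : ℕ, 3 ^ κ ≤ 3 * r ∧
    ∃ a : Fin r → Vec κ, Function.Injective a := by
  refine ⟨Nat.log 3 r + 1, ?_, ?_⟩
  · rw [pow_succ, mul_comm]
    exact Nat.mul_le_mul_left _ (Nat.pow_log_le_self 3 (by omega))
  · have hcard : Fintype.card (Fin r) ≤ Fintype.card (Vec (Nat.log 3 r + 1)) := by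
      have h2 : Fintype.card (Vec (Nat.log 3 r + 1)) = 3 ^ (Nat.log 3 r + 1) := by
        simp [Vec, ZMod.card]
      have h3 := Nat.lt_pow_succ_log_self (b := 3) (by norm_num) r
      rw [h2, Fintype.card_fin]
      exact h3.le
    obtain ⟨f⟩ := Function.Embedding.nonempty_of_card_le hcard
    exact ⟨f, f.injective⟩

section code

variable {r κ : ℕ} (a : Fin r → Vec κ)

/-- the encoding map -/
def enc : Vec κ →ₗ[ZMod 3] (Fin r → ZMod 3) where
  toFun b u := ∑ c, b c * a u c
  map_add' b b' := by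
    funext u
    simp [add_mul, Finset.sum_add_distrib]
  map_smul' t b := by
    funext u
    simp only [Pi.smul_apply, smul_eq_mul, RingHom.id_apply, Finset.mul_sum]
    exact Finset.sum_congr rfl fun c _ => by ring

theorem enc_single (c : Fin κ) (u : Fin r) : enc a (Pi.single c 1) u = a u c := by
  show ∑ k, (Pi.single c 1 : Vec κ) k * a u k = a u c
  rw [Finset.sum_eq_single c]
  · simp
  · intro k _ hk
    simp [Pi.single_eq_of_ne hk]
  · simp

/-- the code -/
def code : AddSubgroup (Fin r → ZMod 3) := (enc a).toAddMonoidHom.range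

theorem enc_mem (b : Vec κ) : enc a b ∈ code a := ⟨b, rfl⟩

theorem card_code : Nat.card (code a) ≤ 3 ^ κ := by
  have h1 : Nat.card (code a) ≤ Nat.card (Vec κ) :=
    Nat.card_le_card_of_surjective _ (enc a).toAddMonoidHom.rangeRestrict_surjective
  refine h1.trans (le_of_eq ?_)
  rw [Nat.card_eq_fintype_card]
  simp [Vec, ZMod.card]

/-- the patterns for independent shifts -/
def PP : (Vec κ × Vec κ × Vec κ) →ₗ[ZMod 3] Pat r :=
  LinearMap.prodMap (enc a) (LinearMap.prodMap (enc a) (enc a))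

theorem PP_apply (b : Vec κ × Vec κ × Vec κ) :
    PP a b = (enc a b.1, enc a b.2.1, enc a b.2.2) := rfl

variable {a}

theorem colA (u : Fin r) (c : Fin κ) : cA (PP a) u (Pi.single c 1, 0, 0) = a u c := by
  rw [cA_apply, PP_apply]; exact enc_single a c u

theorem colA' (u : Fin r) (b c : Vec κ) : cA (PP a) u (0, b, c) = 0 := by
  rw [cA_apply, PP_apply]; simp

theorem colB (u : Fin r) (c : Fin κ) : cB (PP a) u (0, Pi.single c 1, 0) = a u c := by
  rw [cB_apply, PP_apply]; exact enc_single a c u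

theorem colB' (u : Fin r) (b c : Vec κ) : cB (PP a) u (b, 0, c) = 0 := by
  rw [cB_apply, PP_apply]; simp

theorem colC (u : Fin r) (c : Fin κ) : cC (PP a) u (0, 0, Pi.single c 1) = a u c := by
  rw [cC_apply, PP_apply]; exact enc_single a c u

theorem colC' (u : Fin r) (b c : Vec κ) : cC (PP a) u (b, c, 0) = 0 := by
  rw [cC_apply, PP_apply]; simp

/-- the functional with given columns -/
theorem cols_inj (ha : Function.Injective a) {u v w w₀ u' v' w' w₀' : Fin r}
    (h : cA (PP a) u - cB (PP a) v + (cC (PP a) w₀ - cC (PP a) w) =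
      cA (PP a) u' - cB (PP a) v' + (cC (PP a) w₀' - cC (PP a) w')) :
    u = u' ∧ v = v' ∧ a w₀ - a w = a w₀' - a w' := by
  refine ⟨ha ?_, ha ?_, ?_⟩
  · funext c
    have := LinearMap.congr_fun h (Pi.single c 1, 0, 0)
    simpa [LinearMap.add_apply, LinearMap.sub_apply, colA, colB', colC'] using this
  · funext c
    have := LinearMap.congr_fun h (0, Pi.single c 1, 0)
    simpa [LinearMap.add_apply, LinearMap.sub_apply, colA', colB, colC'] using this
  · funext c
    have := LinearMap.congr_fun h (0, 0, Pi.single c 1)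
    simpa [LinearMap.add_apply, LinearMap.sub_apply, colA', colB', colC] using this

theorem count_prod (ha : Function.Injective a)
    (K : Submodule (ZMod 3) (Module.Dual (ZMod 3) (Vec κ × Vec κ × Vec κ)))
    (E : Finset (Fin r × Fin r × Fin r)) (hE : ∀ T ∈ E, AB (PP a) K T) :
    E.card ≤ 1 * Nat.card K := by
  classical
  rw [one_mul]
  have hbase : ∀ v : Fin r, ∃ w₀ : Fin r, (∃ T ∈ E, T.2.1 = v) →
      cB (PP a) v - cC (PP a) w₀ ∈ K := by
    intro v
    by_cases h : ∃ T ∈ E, T.2.1 = v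
    · obtain ⟨T, hT, hv⟩ := h
      refine ⟨T.2.2, fun _ => ?_⟩
      rw [← hv]
      exact (hE T hT).2
    · exact ⟨v, fun h' => absurd h' h⟩
  choose w₀ hw₀ using hbase
  apply card_le_of_inj K E
    (fun T => cA (PP a) T.1 - cB (PP a) T.2.1 + (cC (PP a) (w₀ T.2.1) - cC (PP a) T.2.2))
  · intro T hT
    obtain ⟨hA, hB⟩ := hE T hT
    have h3 := hw₀ T.2.1 ⟨T, hT, rfl⟩
    have h4 : cC (PP a) (w₀ T.2.1) - cC (PP a) T.2.2 =
        (cB (PP a) T.2.1 - cC (PP a) T.2.2) - (cB (PP a) T.2.1 - cC (PP a) (w₀ T.2.1)) := by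
      abel
    rw [h4]
    exact K.add_mem hA (K.sub_mem hB h3)
  · intro T _ T' _ h
    obtain ⟨e1, e2, e3⟩ := cols_inj ha h
    refine Prod.ext e1 (Prod.ext e2 (ha ?_))
    rw [e2] at e3
    exact sub_right_injective e3

end code

theorem finite_products {M F G : Type} [Field F] [Finite M] [Finite G] (C : Algo (Va M) F G)
    (A : Set (Va M → Va M)) : (C.products A).Finite := by
  have h1 : C.products A ⊆ Set.range fun p : (Va M → Va M) × G =>
      s(rename p.1 (C.left p.2), rename p.1 (C.right p.2)) := by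
    rintro _ ⟨f, _, g, rfl⟩
    exact ⟨(f, g), rfl⟩
  exact (Set.finite_range _).subset h1

/-- **Many products.** -/
theorem prod_bound (r : ℕ) (hr : 1 ≤ r) :
    ∃ Γ : AddSubgroup (Fin r → ZMod 3), Nat.card Γ ≤ 3 * r ∧
      ∀ (F : Type) [Field F] (s : ℕ) (Z G : Type) [Fintype Z] [Finite G]
        (C : Algo (Va (Ix r s Z)) F G), C.Multiplies →
        ∀ A : Set (Va (Ix r s Z) → Va (Ix r s Z)),
          (∀ x ∈ Γ, ∀ y ∈ Γ, ∀ z ∈ Γ, sand (shift x) (shift y) (shift z) ∈ A) →
          r ^ 3 * s ^ 2 ≤ 8 * (C.products A).ncard := by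
  classical
  obtain ⟨κ, hκ, a, ha⟩ := exists_columns r hr
  refine ⟨code a, (card_code a).trans hκ, ?_⟩
  intro F _ s Z G _ _ C hC A hA
  -- the ordered pairs
  have hfin : {ω : Om F r s Z | ∃ μ : Vec κ × Vec κ × Vec κ, ∃ g,
      act (PP a μ) (C.left g, C.right g) = ω}.Finite := by
    have h1 : {ω : Om F r s Z | ∃ μ : Vec κ × Vec κ × Vec κ, ∃ g,
        act (PP a μ) (C.left g, C.right g) = ω} =
        Set.range fun p : (Vec κ × Vec κ × Vec κ) × G =>
          act (PP a p.1) (C.left p.2, C.right p.2) := by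
      ext ω
      constructor
      · rintro ⟨μ, g, h⟩
        exact ⟨(μ, g), h⟩
      · rintro ⟨⟨μ, g⟩, h⟩
        exact ⟨μ, g, h⟩
    rw [h1]
    exact Set.finite_range _
  set PS := hfin.toFinset with hPSdef
  have hPS : ∀ ω, ω ∈ PS ↔ ∃ μ : Vec κ × Vec κ × Vec κ, ∃ g,
      act (PP a μ) (C.left g, C.right g) = ω := by
    intro ω
    rw [hPSdef, Set.Finite.mem_toFinset]
    rfl
  have h1 := main_bound (PP a) C hC PS hPS Finset.univ 1 (fun K E _ hE => count_prod ha K E hE)
  rw [Finset.card_univ, Fintype.card_prod, Fintype.card_prod, Fintype.card_fin, one_mul] at h1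
  -- unordered pairs
  have h2 : PS.card ≤ 2 * (PS.image fun ω => s(ω.1, ω.2)).card := by
    refine Finset.card_le_mul_card_image PS 2 ?_
    intro e he
    rw [Finset.mem_image] at he
    obtain ⟨ω₀, _, rfl⟩ := he
    have h3 : (PS.filter fun ω => s(ω.1, ω.2) = s(ω₀.1, ω₀.2)) ⊆
        {(ω₀.1, ω₀.2), (ω₀.2, ω₀.1)} := by
      intro ω hω
      have h4 := (Finset.mem_filter.mp hω).2
      rw [Sym2.eq_iff] at h4
      rw [Finset.mem_insert, Finset.mem_singleton]
      rcases h4 with ⟨h5, h6⟩ | ⟨h5, h6⟩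
      · exact Or.inl (Prod.ext h5 h6)
      · exact Or.inr (Prod.ext h5 h6)
    exact (Finset.card_le_card h3).trans Finset.card_le_two
  have h3 : (PS.image fun ω => s(ω.1, ω.2)).card ≤ (C.products A).ncard := by
    rw [← Set.ncard_coe_finset]
    refine Set.ncard_le_ncard ?_ (finite_products C A)
    intro e he
    rw [Finset.mem_coe, Finset.mem_image] at he
    obtain ⟨ω, hω, rfl⟩ := he
    rw [hPS] at hω
    obtain ⟨μ, g, rfl⟩ := hω
    exact ⟨_, hA _ (enc_mem a μ.1) _ (enc_mem a μ.2.1) _ (enc_mem a μ.2.2), g, rfl⟩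
  calc r ^ 3 * s ^ 2 = r * (r * r) * s ^ 2 := by ring
    _ ≤ 4 * PS.card := h1
    _ ≤ 4 * (2 * (C.products A).ncard) := Nat.mul_le_mul_left _ (h2.trans (Nat.mul_le_mul_left _ h3))
    _ = 8 * (C.products A).ncard := by ring

end Pool.Agent.H429R4.MM
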