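import Pool.Agent.H429R4.MM.Defs

/-!
# The bilinear parts of the products
-/

namespace Pool.Agent.H429R4.MM

open MvPolynomial Finset

variable {F : Type} [Field F]

/-- the linear coefficients of a polynomial -/
noncomputable def lin {V : Type} (P : MvPolynomial V F) (v : V) : F :=
  constantCoeff (pderiv v P)

/-- the bilinear part of a polynomial -/
noncomputable def bil (M : Type) : MvPolynomial (Va M) F →ₗ[F] (M × M → M × M → F) where
  toFun P := fun a b => constantCoeff (pderiv (Sum.inr b) (pderiv (Sum.inl a) P))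
  map_add' P Q := by
    funext a b
    simp
  map_smul' c P := by
    funext a b
    simp [Derivation.map_smul]

theorem bil_apply {M : Type} (P : MvPolynomial (Va M) F) (a b : M × M) :
    bil M P a b = constantCoeff (pderiv (Sum.inr b) (pderiv (Sum.inl a) P)) := rfl

/-- the bilinear form given by the linear parts of two factors -/
noncomputable def pform {M : Type} (P Q : MvPolynomial (Va M) F) : M × M → M × M → F :=
  fun a b => lin P (Sum.inl a) * lin Q (Sum.inr b) + lin Q (Sum.inl a) * lin P (Sum.inr b)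

theorem bil_mul {M : Type} (P Q : MvPolynomial (Va M) F) :
    bil M (P * Q) = constantCoeff P • bil M Q + constantCoeff Q • bil M P + pform P Q := by
  funext a b
  simp only [bil_apply, Pi.add_apply, Pi.smul_apply, pform, lin, Derivation.leibniz, smul_eq_mul,
    map_add, map_mul]
  ring

theorem lin_X {V : Type} [DecidableEq V] (v w : V) :
    lin (F := F) (X w) v = if v = w then 1 else 0 := by
  unfold lin
  rw [pderiv_X]
  by_cases h : v = w
  · subst h
    simp
  · rw [if_neg h, Pi.single_eq_of_ne (Ne.symm h), map_zero]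

theorem bil_X {M : Type} (w : Va M) : bil (F := F) M (X w) = 0 := by
  classical
  funext a b
  rw [bil_apply, pderiv_X]
  by_cases h : Sum.inl a = w
  · subst h
    simp
  · rw [Pi.single_eq_of_ne (Ne.symm h), map_zero, map_zero]
    rfl

theorem bil_one {M : Type} : bil (F := F) M 1 = 0 := by
  funext a b
  rw [bil_apply]
  simp

/-- The bilinear parts of everything computed are combinations of the forms of the products. -/
theorem bil_mem {M G : Type} (C : Algo (Va M) F G) (S : Set G) (P : MvPolynomial (Va M) F)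
    (hP : P ∈ Submodule.span F
      ({1} ∪ Set.range X ∪ {P | ∃ h ∈ S, P = C.left h * C.right h}))
    (hS : ∀ h ∈ S, bil M (C.left h * C.right h) ∈
      Submodule.span F (Set.range fun g => pform (C.left g) (C.right g))) :
    bil M P ∈ Submodule.span F (Set.range fun g => pform (C.left g) (C.right g)) := by
  have h1 : Submodule.span F
      ({1} ∪ Set.range X ∪ {P | ∃ h ∈ S, P = C.left h * C.right h}) ≤
      (Submodule.span F (Set.range fun g => pform (C.left g) (C.right g))).comap (bil M) := by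
    rw [Submodule.span_le]
    rintro Q ((hQ | ⟨w, rfl⟩) | ⟨h, hh, rfl⟩)
    · rw [Set.mem_singleton_iff] at hQ
      subst hQ
      rw [SetLike.mem_coe, Submodule.mem_comap, bil_one]
      exact Submodule.zero_mem _
    · rw [SetLike.mem_coe, Submodule.mem_comap, bil_X]
      exact Submodule.zero_mem _
    · exact hS h hh
  exact h1 hP

theorem bil_prod_mem {M G : Type} (C : Algo (Va M) F G) (g : G) :
    bil M (C.left g * C.right g) ∈
      Submodule.span F (Set.range fun g => pform (C.left g) (C.right g)) := by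
  induction hn : C.rank g using Nat.strong_induction_on generalizing g with
  | _ n ih =>
    subst hn
    have hl := C.left_mem g
    have hr := C.right_mem g
    have e : {P | ∃ h, C.rank h < C.rank g ∧ P = C.left h * C.right h} =
        {P | ∃ h ∈ {h | C.rank h < C.rank g}, P = C.left h * C.right h} := rfl
    rw [e] at hl hr
    have hl' := bil_mem C _ _ hl fun h hh => ih _ hh h rfl
    have hr' := bil_mem C _ _ hr fun h hh => ih _ hh h rfl
    rw [bil_mul]
    refine Submodule.add_mem _ (Submodule.add_mem _ (Submodule.smul_mem _ _ hr')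
      (Submodule.smul_mem _ _ hl')) (Submodule.subset_span ⟨g, rfl⟩)

theorem bil_out_mem {M G : Type} [Fintype M] (C : Algo (Va M) F G) (hC : C.Multiplies)
    (p q : M) : bil M (prodEntry F p q) ∈
      Submodule.span F (Set.range fun g => pform (C.left g) (C.right g)) := by
  refine bil_mem C Set.univ _ ?_ fun h _ => bil_prod_mem C h
  have h1 := hC p q
  simpa using h1

theorem bil_prodEntry {M : Type} [Fintype M] [DecidableEq M] (p q : M) (a b : M × M) :
    bil M (prodEntry F p q) a b = if a.1 = p ∧ b.2 = q ∧ a.2 = b.1 then 1 else 0 := by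
  have h1 : ∀ k, bil M (X (Sum.inl (p, k)) * X (Sum.inr (k, q))) a b =
      (if a = (p, k) then (1 : F) else 0) * (if b = (k, q) then 1 else 0) := by
    intro k
    rw [bil_mul]
    simp only [constantCoeff_X, zero_smul, zero_add, pform, lin_X, Sum.inl.injEq, Sum.inr.injEq,
      reduceCtorEq, if_false, mul_zero, add_zero]
  unfold prodEntry
  rw [map_sum, Finset.sum_apply, Finset.sum_apply]
  simp only [h1]
  obtain ⟨a1, a2⟩ := a
  obtain ⟨b1, b2⟩ := b
  simp only [Prod.mk.injEq]
  by_cases h : a1 = p ∧ b2 = q ∧ a2 = b1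
  · rw [if_pos h]
    obtain ⟨rfl, rfl, rfl⟩ := h
    rw [Finset.sum_eq_single a2]
    · simp
    · intro k _ hk
      rw [if_neg (fun h => hk h.2.symm), zero_mul]
    · intro h
      exact absurd (Finset.mem_univ _) h
  · rw [if_neg h]
    refine Finset.sum_eq_zero fun k _ => ?_
    by_cases h2 : a1 = p ∧ a2 = k
    · have h5 : ¬ (b1 = k ∧ b2 = q) := by
        rintro ⟨h3, h4⟩
        exact h ⟨h2.1, h4, h2.2.trans h3.symm⟩
      rw [if_neg h5, mul_zero]
    · rw [if_neg h2, zero_mul]

/-! ### Renaming -/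

theorem lin_rename {V V' : Type} {f : V → V'} (hf : Function.Injective f)
    (P : MvPolynomial V F) (v : V) : lin (rename f P) (f v) = lin P v := by
  unfold lin
  rw [pderiv_rename hf, constantCoeff_rename]

variable {r s : ℕ} {Z : Type}

theorem shift_shift (x y : Fin r → ZMod 3) (p : Ix r s Z) :
    shift y (shift x p) = shift (x + y) p := by
  rcases p with ⟨v, c, i⟩ | z
  · simp [shift, add_assoc]
  · rfl

theorem shift_zero (p : Ix r s Z) : shift 0 p = p := by
  rcases p with ⟨v, c, i⟩ | z <;> simp [shift]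

/-- patterns for the three kinds of indices -/
abbrev Pat (r : ℕ) : Type := (Fin r → ZMod 3) × (Fin r → ZMod 3) × (Fin r → ZMod 3)

/-- the map of the variables given by shifts of the three kinds of indices -/
abbrev shV (x : Pat r) : Va (Ix r s Z) → Va (Ix r s Z) :=
  sand (shift x.1) (shift x.2.1) (shift x.2.2)

theorem shV_shV (x y : Pat r) (v : Va (Ix r s Z)) : shV y (shV x v) = shV (x + y) v := by
  rcases v with ⟨p, q⟩ | ⟨p, q⟩ <;> simp [sand, shift_shift]

theorem shV_zero (v : Va (Ix r s Z)) : shV 0 v = v := by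
  rcases v with ⟨p, q⟩ | ⟨p, q⟩ <;> simp [sand, shift_zero]

theorem shV_injective (x : Pat r) : Function.Injective (shV x : Va (Ix r s Z) → Va (Ix r s Z)) := by
  intro v w h
  have h1 := congrArg (shV (-x)) h
  rwa [shV_shV, shV_shV, add_neg_cancel, shV_zero, shV_zero] at h1

/-! ### The substitutions -/

/-- the shifted block sums of a matrix -/
def pa (u v : Fin r) (a : ZMod 3) (α : Ix r s Z × Ix r s Z → F) (i k : Fin s) : F :=
  ∑ c : ZMod 3, α (.inl (u, c, i), .inl (v, c + a, k))

/-- the shifted block sums of a bilinear form -/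
def Ph (u v w : Fin r) (a b : ZMod 3) :
    (Ix r s Z × Ix r s Z → Ix r s Z × Ix r s Z → F) →ₗ[F]
      (Fin s → Fin s → Fin s → Fin s → F) where
  toFun q := fun i k k' j => ∑ c : ZMod 3, ∑ d : ZMod 3,
    q (.inl (u, c, i), .inl (v, c + a, k)) (.inl (v, d, k'), .inl (w, d + b, j))
  map_add' p q := by
    funext i k k' j
    simp [Finset.sum_add_distrib]
  map_smul' c q := by
    funext i k k' j
    simp [Finset.mul_sum]

theorem Ph_apply (u v w : Fin r) (a b : ZMod 3)
    (q : Ix r s Z × Ix r s Z → Ix r s Z × Ix r s Z → F) (i k k' j : Fin s) :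
    Ph u v w a b q i k k' j = ∑ c : ZMod 3, ∑ d : ZMod 3,
      q (.inl (u, c, i), .inl (v, c + a, k)) (.inl (v, d, k'), .inl (w, d + b, j)) := rfl

/-- the left and the right coefficients -/
noncomputable def lA {M : Type} (P : MvPolynomial (Va M) F) : M × M → F := fun z => lin P (.inl z)

noncomputable def lB {M : Type} (P : MvPolynomial (Va M) F) : M × M → F := fun z => lin P (.inr z)

theorem Ph_pform (u v w : Fin r) (a b : ZMod 3) (P Q : MvPolynomial (Va (Ix r s Z)) F)
    (i k k' j : Fin s) :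
    Ph u v w a b (pform P Q) i k k' j =
      pa u v a (lA P) i k * pa v w b (lB Q) k' j + pa u v a (lA Q) i k * pa v w b (lB P) k' j := by
  rw [Ph_apply]
  unfold pa
  rw [Finset.sum_mul_sum, Finset.sum_mul_sum, ← Finset.sum_add_distrib]
  refine Finset.sum_congr rfl fun c _ => ?_
  rw [← Finset.sum_add_distrib]
  rfl

theorem pa_lA_rename (u v : Fin r) (a : ZMod 3) (x : Pat r) (P : MvPolynomial (Va (Ix r s Z)) F)
    (i k : Fin s) :
    pa u v a (lA (rename (shV x) P)) i k = pa u v (a + x.1 u - x.2.1 v) (lA P) i k := by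
  unfold pa
  symm
  refine Fintype.sum_equiv (Equiv.addRight (x.1 u)) _ _ fun c => ?_
  unfold lA
  have h1 := lin_rename (shV_injective x) P
    (.inl (.inl (u, c, i), .inl (v, c + (a + x.1 u - x.2.1 v), k)))
  rw [← h1]
  congr 1
  simp only [sand, shift, Equiv.coe_addRight]
  congr 5
  ring

theorem pa_lB_rename (v w : Fin r) (b : ZMod 3) (x : Pat r) (P : MvPolynomial (Va (Ix r s Z)) F)
    (k j : Fin s) :
    pa v w b (lB (rename (shV x) P)) k j = pa v w (b + x.2.1 v - x.2.2 w) (lB P) k j := by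
  unfold pa
  symm
  refine Fintype.sum_equiv (Equiv.addRight (x.2.1 v)) _ _ fun c => ?_
  unfold lB
  have h1 := lin_rename (shV_injective x) P
    (.inr (.inl (v, c, k), .inl (w, c + (b + x.2.1 v - x.2.2 w), j)))
  rw [← h1]
  congr 1
  simp only [sand, shift, Equiv.coe_addRight]
  congr 5
  ring

theorem Ph_rename (u v w : Fin r) (a b : ZMod 3) (x : Pat r)
    (P Q : MvPolynomial (Va (Ix r s Z)) F) :
    Ph u v w a b (pform (rename (shV x) P) (rename (shV x) Q)) =
      Ph u v w (a + x.1 u - x.2.1 v) (b + x.2.1 v - x.2.2 w) (pform P Q) := by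
  funext i k k' j
  rw [Ph_pform, Ph_pform]
  simp only [pa_lA_rename, pa_lB_rename]

/-- the reduced block sums -/
def Et (u v w : Fin r) (a b : ZMod 3) :
    (Ix r s Z × Ix r s Z → Ix r s Z × Ix r s Z → F) →ₗ[F]
      (Fin s → Fin s → Fin s → Fin s → F) :=
  Ph u v w a b - Ph u v w 0 b - Ph u v w a 0 + Ph u v w 0 0

theorem Et_zero_left (u v w : Fin r) (b : ZMod 3) :
    (Et u v w 0 b : (Ix r s Z × Ix r s Z → Ix r s Z × Ix r s Z → F) →ₗ[F] _) = 0 := by
  unfold Et
  simp

theorem Et_zero_right (u v w : Fin r) (a : ZMod 3) :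
    (Et u v w a 0 : (Ix r s Z × Ix r s Z → Ix r s Z × Ix r s Z → F) →ₗ[F] _) = 0 := by
  unfold Et
  simp

/-- A pair of factors sees a triple. -/
def Sees (u v w : Fin r) (ω : MvPolynomial (Va (Ix r s Z)) F × MvPolynomial (Va (Ix r s Z)) F) :
    Prop :=
  ∃ a b, Et u v w a b (pform ω.1 ω.2) ≠ 0

theorem z3_const {δ : ZMod 3} (hδ : δ ≠ 0) {X : Type} (f : ZMod 3 → X)
    (h : ∀ a, f (a + δ) = f a) (a : ZMod 3) : f a = f 0 := by
  have h1 : ∀ δ : ZMod 3, δ ≠ 0 → ∀ a : ZMod 3, a = 0 ∨ a = 0 + δ ∨ a = 0 + δ + δ := by decide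
  rcases h1 δ hδ a with rfl | rfl | rfl
  · rfl
  · rw [h]
  · rw [h, h]

/-- If a pair of factors sees the triple, it is only fixed by patterns that shift the three
triples of blocks in the same way. -/
theorem sees_fix {u v w : Fin r}
    {ω : MvPolynomial (Va (Ix r s Z)) F × MvPolynomial (Va (Ix r s Z)) F}
    (h : Sees u v w ω) {x : Pat r} (h1 : rename (shV x) ω.1 = ω.1)
    (h2 : rename (shV x) ω.2 = ω.2) : x.1 u = x.2.1 v ∧ x.2.1 v = x.2.2 w := by
  obtain ⟨a, b, hab⟩ := h
  constructor
  · by_contra hne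
    apply hab
    have hδ : x.1 u - x.2.1 v ≠ 0 := sub_ne_zero.2 hne
    have hP : ∀ (P : MvPolynomial (Va (Ix r s Z)) F), rename (shV x) P = P → ∀ a,
        pa u v a (lA P) = pa u v 0 (lA P) := by
      intro P hP a
      refine z3_const hδ (fun a => pa u v a (lA P)) (fun a => ?_) a
      funext i k
      have := pa_lA_rename u v a x P i k
      rw [hP] at this
      rw [this, add_sub_assoc]
    have key : ∀ b, Ph u v w a b (pform ω.1 ω.2) = Ph u v w 0 b (pform ω.1 ω.2) := by
      intro b
      funext i k k' j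
      rw [Ph_pform, Ph_pform, hP _ h1 a, hP _ h2 a]
    unfold Et
    simp only [LinearMap.add_apply, LinearMap.sub_apply, key]
    simp
  · by_contra hne
    apply hab
    have hδ : x.2.1 v - x.2.2 w ≠ 0 := sub_ne_zero.2 hne
    have hP : ∀ (P : MvPolynomial (Va (Ix r s Z)) F), rename (shV x) P = P → ∀ b,
        pa v w b (lB P) = pa v w 0 (lB P) := by
      intro P hP b
      refine z3_const hδ (fun b => pa v w b (lB P)) (fun b => ?_) b
      funext i k
      have := pa_lB_rename v w b x P i k
      rw [hP] at this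
      rw [this, add_sub_assoc]
    have key : ∀ a, Ph u v w a b (pform ω.1 ω.2) = Ph u v w a 0 (pform ω.1 ω.2) := by
      intro a
      funext i k k' j
      rw [Ph_pform, Ph_pform, hP _ h1 b, hP _ h2 b]
    unfold Et
    simp only [LinearMap.add_apply, LinearMap.sub_apply, key]
    simp

/-- the test: the form of an entry of the product -/
theorem Ph_prodEntry [Fintype Z] (u v w : Fin r) (a b : ZMod 3) (i₀ j₀ i k k' j : Fin s) :
    Ph u v w a b (bil (Ix r s Z) (prodEntry F (.inl (u, 0, i₀)) (.inl (w, 0, j₀)))) i k k' j =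
      if a + b = 0 then (if i = i₀ ∧ j = j₀ ∧ k = k' then (1 : F) else 0) else 0 := by
  classical
  rw [Ph_apply]
  simp only [bil_prodEntry, Sum.inl.injEq, Prod.mk.injEq, true_and]
  have h1 : ∀ c d : ZMod 3, ((c = 0 ∧ i = i₀) ∧ (d + b = 0 ∧ j = j₀) ∧ c + a = d ∧ k = k') ↔
      (c = 0 ∧ d = a ∧ a + b = 0 ∧ i = i₀ ∧ j = j₀ ∧ k = k') := by
    intro c d
    constructor
    · rintro ⟨⟨rfl, h2⟩, ⟨h3, h4⟩, h5, h6⟩
      rw [zero_add] at h5
      subst h5
      exact ⟨rfl, rfl, h3, h2, h4, h6⟩
    · rintro ⟨rfl, rfl, h3, h4, h5, h6⟩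
      exact ⟨⟨rfl, h4⟩, ⟨h3, h5⟩, by rw [zero_add], h6⟩
  simp only [h1]
  rw [Finset.sum_eq_single 0, Finset.sum_eq_single a]
  · by_cases h : a + b = 0
    · rw [if_pos h]
      by_cases h' : i = i₀ ∧ j = j₀ ∧ k = k'
      · rw [if_pos h', if_pos ⟨rfl, rfl, h, h'⟩]
      · rw [if_neg h', if_neg fun h'' => h' h''.2.2.2]
    · rw [if_neg h, if_neg fun h'' => h h''.2.2.1]
  · intro d _ hd
    rw [if_neg fun h => hd h.2.1]
  · intro h
    exact absurd (Finset.mem_univ _) h
  · intro c _ hc
    refine Finset.sum_eq_zero fun d _ => ?_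
    rw [if_neg fun h => hc h.1]
  · intro h
    exact absurd (Finset.mem_univ _) h

/-- the form that defines the entry `(i, j)` of the product of two `s × s` matrices -/
def ent (F : Type) [Field F] {s : ℕ} (p : Fin s × Fin s) : Fin s → Fin s → Fin s → Fin s → F :=
  fun i k k' j => if i = p.1 ∧ j = p.2 ∧ k = k' then 1 else 0

/-- the second difference of the block sums -/
def D2 (u v w : Fin r) (a b : ZMod 3) :
    (Ix r s Z × Ix r s Z → Ix r s Z × Ix r s Z → F) →ₗ[F]
      (Fin s → Fin s → Fin s → Fin s → F) :=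
  Ph u v w a b - Ph u v w (a + 1) b - Ph u v w a (b + 1) + Ph u v w (a + 1) (b + 1)

theorem D2_eq (u v w : Fin r) (a b : ZMod 3)
    (q : Ix r s Z × Ix r s Z → Ix r s Z × Ix r s Z → F) :
    D2 u v w a b q = Et u v w a b q - Et u v w (a + 1) b q - Et u v w a (b + 1) q +
      Et u v w (a + 1) (b + 1) q := by
  unfold D2 Et
  simp only [LinearMap.add_apply, LinearMap.sub_apply]
  abel

theorem D2_rename (u v w : Fin r) (x : Pat r) (P Q : MvPolynomial (Va (Ix r s Z)) F) :
    D2 u v w 0 0 (pform (rename (shV x) P) (rename (shV x) Q)) =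
      D2 u v w (x.1 u - x.2.1 v) (x.2.1 v - x.2.2 w) (pform P Q) := by
  unfold D2
  simp only [LinearMap.add_apply, LinearMap.sub_apply, Ph_rename]
  have e1 : ∀ a b : ZMod 3, 0 + a - b = a - b := by
    intro a b
    rw [zero_add]
  have e2 : ∀ a b : ZMod 3, 0 + 1 + a - b = a - b + 1 := by
    intro a b
    ring
  rw [e1, e1, e2, e2]

theorem D2_prodEntry [Fintype Z] (u v w : Fin r) (i₀ j₀ : Fin s) :
    D2 u v w 0 0 (bil (Ix r s Z) (prodEntry F (.inl (u, 0, i₀)) (.inl (w, 0, j₀)))) =
      ent F (i₀, j₀) := by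
  unfold D2
  funext i k k' j
  simp only [LinearMap.add_apply, LinearMap.sub_apply, Pi.add_apply, Pi.sub_apply, Ph_prodEntry]
  have e1 : (0 : ZMod 3) + 1 + (0 + 1) ≠ 0 := by decide
  have e2 : (0 : ZMod 3) + (0 + 1) ≠ 0 := by decide
  have e3 : (0 : ZMod 3) + 1 + 0 ≠ 0 := by decide
  rw [if_neg e1, if_neg e2, if_neg e3, if_pos (add_zero 0)]
  unfold ent
  simp

theorem ent_linearIndependent (F : Type) [Field F] (s : ℕ) :
    LinearIndependent F (ent F (s := s)) := by
  classical
  rw [Fintype.linearIndependent_iff]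
  rintro c hc ⟨i, j⟩
  have h1 := congrFun (congrFun (congrFun (congrFun hc i) i) i) j
  simp only [Finset.sum_apply, Pi.smul_apply, ent, smul_eq_mul, and_true, Pi.zero_apply] at h1
  rw [Finset.sum_eq_single (i, j)] at h1
  · simpa using h1
  · rintro ⟨i', j'⟩ _ hne
    rw [if_neg, mul_zero]
    rintro ⟨h2, h3⟩
    exact hne (Prod.ext h2.symm h3.symm)
  · intro h
    exact absurd (Finset.mem_univ _) h

end Pool.Agent.H429R4.MM
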