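import Pool.Agent.H429R4.MM.Forms

/-!
# Every algorithm has many different products
-/

namespace Pool.Agent.H429R4.MM

open MvPolynomial Finset

section dual

variable {V : Type} [AddCommGroup V] [Module (ZMod 3) V] [Finite V]

theorem finite_dual (V : Type) [AddCommGroup V] [Module (ZMod 3) V] [Finite V] :
    Finite (Module.Dual (ZMod 3) V) :=
  Finite.of_injective (fun f : Module.Dual (ZMod 3) V => (f : V → ZMod 3)) DFunLike.coe_injective

theorem card_dualAnnihilator (H : Submodule (ZMod 3) V) :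
    Nat.card H.dualAnnihilator * Nat.card H = Nat.card V := by
  have := finite_dual V
  have h1 : Nat.card H = 3 ^ Module.finrank (ZMod 3) H := by
    rw [Module.natCard_eq_pow_finrank (K := ZMod 3), Nat.card_zmod]
  have h2 : Nat.card H.dualAnnihilator = 3 ^ Module.finrank (ZMod 3) H.dualAnnihilator := by
    rw [Module.natCard_eq_pow_finrank (K := ZMod 3), Nat.card_zmod]
  have h3 : Nat.card V = 3 ^ Module.finrank (ZMod 3) V := by
    rw [Module.natCard_eq_pow_finrank (K := ZMod 3), Nat.card_zmod]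
  have h4 := Subspace.finrank_add_finrank_dualAnnihilator_eq H
  rw [h1, h2, h3, ← pow_add]
  congr 1
  rw [add_comm]
  exact h4

theorem card_le_of_inj {α : Type} (K : Submodule (ZMod 3) (Module.Dual (ZMod 3) V)) (E : Finset α)
    (f : α → Module.Dual (ZMod 3) V) (hf : ∀ x ∈ E, f x ∈ K) (hinj : Set.InjOn f E) :
    E.card ≤ Nat.card K := by
  have := finite_dual V
  rw [← Fintype.card_coe, ← Nat.card_eq_fintype_card]
  exact Nat.card_le_card_of_injective (fun x : E => (⟨f x.1, hf x.1 x.2⟩ : K))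
    fun x y hxy => Subtype.ext (hinj x.2 y.2 (congrArg Subtype.val hxy))

end dual

variable {F : Type} [Field F] {r s : ℕ} {Z : Type}
  {V : Type} [AddCommGroup V] [Module (ZMod 3) V] (P : V →ₗ[ZMod 3] Pat r)

/-- pairs of factors -/
abbrev Om (F : Type) [Field F] (r s : ℕ) (Z : Type) : Type :=
  MvPolynomial (Va (Ix r s Z)) F × MvPolynomial (Va (Ix r s Z)) F

/-- the action on the pairs of factors -/
noncomputable def act (x : Pat r) (ω : Om F r s Z) : Om F r s Z :=
  (rename (shV x) ω.1, rename (shV x) ω.2)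

theorem act_zero (ω : Om F r s Z) : act 0 ω = ω := by
  unfold act
  have h : (shV 0 : Va (Ix r s Z) → Va (Ix r s Z)) = id := funext shV_zero
  rw [h, rename_id_apply, rename_id_apply]

theorem act_act (x y : Pat r) (ω : Om F r s Z) : act y (act x ω) = act (x + y) ω := by
  unfold act
  have h : (shV y ∘ shV x : Va (Ix r s Z) → Va (Ix r s Z)) = shV (x + y) := funext (shV_shV x y)
  simp only [rename_rename, h]

/-- the stabiliser of a pair of factors -/
def fixS (ω : Om F r s Z) : Submodule (ZMod 3) V where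
  carrier := {μ | act (P μ) ω = ω}
  add_mem' := by
    intro μ ν h h'
    change act (P (μ + ν)) ω = ω
    rw [map_add, ← act_act, show act (P μ) ω = ω from h]
    exact h'
  zero_mem' := by
    change act (P 0) ω = ω
    rw [map_zero, act_zero]
  smul_mem' := by
    intro c μ h
    have h' : act (P μ) ω = ω := h
    have hc : c = 0 ∨ c = 1 ∨ c = 1 + 1 := by
      revert c
      decide
    change act (P (c • μ)) ω = ω
    rcases hc with rfl | rfl | rfl
    · rw [zero_smul, map_zero, act_zero]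
    · rw [one_smul, h']
    · rw [add_smul, one_smul, map_add, ← act_act, h', h']

theorem mem_fixS {ω : Om F r s Z} {μ : V} : μ ∈ fixS P ω ↔ act (P μ) ω = ω := Iff.rfl

/-- two pairs are equivalent if a pattern maps one to the other -/
def Rel (ω ω' : Om F r s Z) : Prop := ∃ μ : V, act (P μ) ω = ω'

theorem Rel.symm' {ω ω' : Om F r s Z} (h : Rel P ω ω') : Rel P ω' ω := by
  obtain ⟨μ, rfl⟩ := h
  refine ⟨-μ, ?_⟩
  rw [act_act, ← map_add, add_neg_cancel, map_zero, act_zero]

theorem Rel.trans' {ω ω' ω'' : Om F r s Z} (h : Rel P ω ω') (h' : Rel P ω' ω'') :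
    Rel P ω ω'' := by
  obtain ⟨μ, rfl⟩ := h
  obtain ⟨ν, rfl⟩ := h'
  exact ⟨μ + ν, by rw [map_add, act_act]⟩

/-- the setoid -/
def relS : Setoid (Om F r s Z) where
  r := Rel P
  iseqv := {
    refl := fun ω => ⟨0, by rw [map_zero, act_zero]⟩
    symm := fun h => Rel.symm' P h
    trans := fun h h' => Rel.trans' P h h' }

/-- representatives of the classes -/
noncomputable def rep (ω : Om F r s Z) : Om F r s Z := (Quotient.mk (relS P) ω).out

theorem rep_rel (ω : Om F r s Z) : Rel P (rep P ω) ω :=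
  Quotient.exact (s := relS P) (Quotient.out_eq _)

theorem rep_eq {ω ω' : Om F r s Z} (h : Rel P ω ω') : rep P ω = rep P ω' := by
  unfold rep
  rw [Quotient.sound (s := relS P) h]

theorem rep_rep (ω : Om F r s Z) : rep P (rep P ω) = rep P ω :=
  rep_eq P (rep_rel P ω)

/-- Orbits are large if the stabiliser is small. -/
theorem card_orbit [Finite V] (PS : Finset (Om F r s Z))
    (hPS : ∀ ω ∈ PS, ∀ μ, act (P μ) ω ∈ PS) [DecidableEq (Om F r s Z)]
    {ρ : Om F r s Z} (hρ : ρ ∈ PS) (hrep : rep P ρ = ρ) :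
    Nat.card (fixS P ρ).dualAnnihilator ≤ (PS.filter fun ω => rep P ω = ρ).card := by
  have h0 := card_dualAnnihilator (fixS P ρ)
  have h1 := Submodule.card_eq_card_quotient_mul_card (fixS P ρ)
  have h2 : Nat.card (V ⧸ fixS P ρ) ≤ (PS.filter fun ω => rep P ω = ρ).card := by
    rw [← Fintype.card_coe, ← Nat.card_eq_fintype_card]
    refine Nat.card_le_card_of_injective (fun q : V ⧸ fixS P ρ =>
      (⟨act (P q.out) ρ, ?_⟩ : {ω // ω ∈ PS.filter fun ω => rep P ω = ρ})) ?_
    · rw [Finset.mem_filter]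
      refine ⟨hPS ρ hρ _, ?_⟩
      rw [← rep_eq P (⟨_, rfl⟩ : Rel P ρ (act (P q.out) ρ)), hrep]
    · intro q q' e'
      have e : act (P q.out) ρ = act (P q'.out) ρ := congrArg (fun z => z.1) e'
      rw [← q.out_eq, ← q'.out_eq]
      refine (Submodule.Quotient.eq _).2 ?_
      rw [mem_fixS, sub_eq_add_neg, map_add, ← act_act, e, act_act, ← map_add, add_neg_cancel,
        map_zero, act_zero]
  have h3 : 0 < Nat.card (fixS P ρ) := Nat.card_pos
  refine le_trans ?_ h2
  refine Nat.le_of_mul_le_mul_right (c := Nat.card (fixS P ρ)) ?_ h3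
  rw [h0, h1, mul_comm]

/-! ### The functionals -/

/-- the coordinate functionals -/
def cA (u : Fin r) : Module.Dual (ZMod 3) V :=
  (LinearMap.proj u).comp ((LinearMap.fst _ _ _).comp P)

def cB (v : Fin r) : Module.Dual (ZMod 3) V :=
  (LinearMap.proj v).comp ((LinearMap.fst _ _ _).comp ((LinearMap.snd _ _ _).comp P))

def cC (w : Fin r) : Module.Dual (ZMod 3) V :=
  (LinearMap.proj w).comp ((LinearMap.snd _ _ _).comp ((LinearMap.snd _ _ _).comp P))

theorem cA_apply (u : Fin r) (μ : V) : cA P u μ = (P μ).1 u := rfl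
theorem cB_apply (v : Fin r) (μ : V) : cB P v μ = (P μ).2.1 v := rfl
theorem cC_apply (w : Fin r) (μ : V) : cC P w μ = (P μ).2.2 w := rfl

/-- the triples that a pair of factors with the given annihilator can see -/
def AB (K : Submodule (ZMod 3) (Module.Dual (ZMod 3) V)) (T : Fin r × Fin r × Fin r) : Prop :=
  cA P T.1 - cB P T.2.1 ∈ K ∧ cB P T.2.1 - cC P T.2.2 ∈ K

theorem sees_AB {ω : Om F r s Z} {T : Fin r × Fin r × Fin r}
    (h : Sees T.1 T.2.1 T.2.2 ω) : AB P (fixS P ω).dualAnnihilator T := by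
  unfold AB
  rw [Submodule.mem_dualAnnihilator, Submodule.mem_dualAnnihilator]
  constructor
  · intro μ hμ
    rw [mem_fixS] at hμ
    have h1 := sees_fix h (congrArg Prod.fst hμ) (congrArg Prod.snd hμ)
    rw [LinearMap.sub_apply, cA_apply, cB_apply, h1.1, sub_self]
  · intro μ hμ
    rw [mem_fixS] at hμ
    have h1 := sees_fix h (congrArg Prod.fst hμ) (congrArg Prod.snd hμ)
    rw [LinearMap.sub_apply, cB_apply, cC_apply, h1.2, sub_self]

open Classical in
/-- **One triple.** -/
theorem triple_bound [Fintype Z] {G : Type} (C : Algo (Va (Ix r s Z)) F G)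
    (hC : C.Multiplies) (R : Finset (Om F r s Z))
    (hR : ∀ g, ∃ ρ ∈ R, Rel P ρ (C.left g, C.right g)) (u v w : Fin r) :
    s ^ 2 ≤ 4 * (R.filter fun ρ => Sees u v w ρ).card := by
  set S := R.filter fun ρ => Sees u v w ρ with hS
  let nz : Finset (ZMod 3) := univ.filter fun a => a ≠ 0
  have hnz : nz.card = 2 := by decide
  let gens : Finset (Fin s → Fin s → Fin s → Fin s → F) :=
    (S ×ˢ (nz ×ˢ nz)).image fun q => Et u v w q.2.1 q.2.2 (pform q.1.1 q.1.2)
  have hgens : gens.card ≤ 4 * S.card := by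
    refine Finset.card_image_le.trans ?_
    rw [Finset.card_product, Finset.card_product, hnz]
    omega
  set J := Submodule.span F (gens : Set (Fin s → Fin s → Fin s → Fin s → F)) with hJ
  have h1 : ∀ ρ ∈ R, ∀ a b, Et u v w a b (pform ρ.1 ρ.2) ∈ J := by
    intro ρ hρ a b
    by_cases ha : a = 0
    · rw [ha, Et_zero_left, LinearMap.zero_apply]
      exact J.zero_mem
    by_cases hb : b = 0
    · rw [hb, Et_zero_right, LinearMap.zero_apply]
      exact J.zero_mem
    by_cases hs : Sees u v w ρ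
    · refine Submodule.subset_span ?_
      rw [Finset.mem_coe, Finset.mem_image]
      refine ⟨(ρ, a, b), ?_, rfl⟩
      rw [Finset.mem_product, Finset.mem_product, hS, Finset.mem_filter, Finset.mem_filter,
        Finset.mem_filter]
      exact ⟨⟨hρ, hs⟩, ⟨Finset.mem_univ _, ha⟩, ⟨Finset.mem_univ _, hb⟩⟩
    · unfold Sees at hs
      push Not at hs
      rw [hs a b]
      exact J.zero_mem
  have h2 : ∀ g, D2 u v w 0 0 (pform (C.left g) (C.right g)) ∈ J := by
    intro g
    obtain ⟨ρ, hρ, μ, hμ⟩ := hR g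
    have e1 : C.left g = rename (shV (P μ)) ρ.1 := (congrArg Prod.fst hμ).symm
    have e2 : C.right g = rename (shV (P μ)) ρ.2 := (congrArg Prod.snd hμ).symm
    rw [e1, e2, D2_rename, D2_eq]
    exact J.add_mem (J.sub_mem (J.sub_mem (h1 ρ hρ _ _) (h1 ρ hρ _ _)) (h1 ρ hρ _ _))
      (h1 ρ hρ _ _)
  have h3 : Submodule.span F (Set.range fun g => pform (C.left g) (C.right g)) ≤
      J.comap (D2 u v w 0 0) := by
    rw [Submodule.span_le]
    rintro _ ⟨g, rfl⟩
    exact h2 g
  have h4 : Set.range (ent F (s := s)) ≤ J := by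
    rintro _ ⟨⟨i, j⟩, rfl⟩
    rw [← D2_prodEntry (Z := Z) u v w i j]
    exact h3 (bil_out_mem C hC _ _)
  have h5 := linearIndependent_le_span_aux' (ent F (s := s)) (ent_linearIndependent F s)
    (gens : Set _) h4
  rw [Fintype.card_prod, Fintype.card_fin] at h5
  have h6 : Fintype.card (gens : Set (Fin s → Fin s → Fin s → Fin s → F)) = gens.card := by
    simp
  rw [h6] at h5
  calc s ^ 2 = s * s := sq s
    _ ≤ gens.card := h5
    _ ≤ _ := hgens

open Classical in
/-- **The general lower bound.** -/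
theorem main_bound [Finite V] [Fintype Z] {G : Type} (C : Algo (Va (Ix r s Z)) F G)
    (hC : C.Multiplies) (PS : Finset (Om F r s Z))
    (hPS : ∀ ω, ω ∈ PS ↔ ∃ μ : V, ∃ g, act (P μ) (C.left g, C.right g) = ω)
    (T0 : Finset (Fin r × Fin r × Fin r)) (c : ℕ)
    (hK : ∀ K : Submodule (ZMod 3) (Module.Dual (ZMod 3) V), ∀ E ⊆ T0,
      (∀ T ∈ E, AB P K T) → E.card ≤ c * Nat.card K) :
    T0.card * s ^ 2 ≤ 4 * (c * PS.card) := by
  have hcl : ∀ ω ∈ PS, ∀ μ, act (P μ) ω ∈ PS := by
    intro ω hω μ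
    rw [hPS] at hω ⊢
    obtain ⟨ν, g, rfl⟩ := hω
    exact ⟨ν + μ, g, by rw [map_add, act_act]⟩
  have hrepm : ∀ ω ∈ PS, rep P ω ∈ PS := by
    intro ω hω
    obtain ⟨μ, hμ⟩ := Rel.symm' P (rep_rel P ω)
    rw [← hμ]
    exact hcl ω hω μ
  set R := PS.image (rep P) with hR
  have hRP : ∀ ρ ∈ R, ρ ∈ PS ∧ rep P ρ = ρ := by
    intro ρ hρ
    rw [hR, Finset.mem_image] at hρ
    obtain ⟨ω, hω, rfl⟩ := hρ
    exact ⟨hrepm ω hω, rep_rep P ω⟩
  have hRg : ∀ g, ∃ ρ ∈ R, Rel P ρ (C.left g, C.right g) := by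
    intro g
    refine ⟨rep P (C.left g, C.right g), ?_, rep_rel P _⟩
    rw [hR]
    refine Finset.mem_image_of_mem _ ?_
    rw [hPS]
    exact ⟨0, g, by rw [map_zero, act_zero]⟩
  have h1 : T0.card * s ^ 2 ≤
      4 * ∑ T ∈ T0, (R.filter fun ρ => Sees T.1 T.2.1 T.2.2 ρ).card := by
    rw [Finset.mul_sum, ← smul_eq_mul, ← Finset.sum_const]
    exact Finset.sum_le_sum fun T _ => triple_bound P C hC R hRg T.1 T.2.1 T.2.2
  have h3 : ∑ T ∈ T0, (R.filter fun ρ => Sees T.1 T.2.1 T.2.2 ρ).card =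
      ∑ ρ ∈ R, (T0.filter fun T => Sees T.1 T.2.1 T.2.2 ρ).card := by
    simp only [Finset.card_filter]
    rw [Finset.sum_comm]
  have h4 : ∀ ρ ∈ R, (T0.filter fun T => Sees T.1 T.2.1 T.2.2 ρ).card ≤
      c * (PS.filter fun ω => rep P ω = ρ).card := by
    intro ρ hρ
    refine (hK (fixS P ρ).dualAnnihilator _ (Finset.filter_subset _ _) ?_).trans
      (Nat.mul_le_mul_left _ (card_orbit P PS hcl (hRP ρ hρ).1 (hRP ρ hρ).2))
    intro T hT
    exact sees_AB P (Finset.mem_filter.mp hT).2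
  have h5 : ∑ ρ ∈ R, (PS.filter fun ω => rep P ω = ρ).card = PS.card := by
    rw [← Finset.card_eq_sum_card_fiberwise (f := rep P) (s := PS) (t := R)]
    intro ω hω
    exact Finset.mem_image_of_mem _ hω
  calc T0.card * s ^ 2 ≤ 4 * ∑ ρ ∈ R, (T0.filter fun T => Sees T.1 T.2.1 T.2.2 ρ).card := by
        rw [← h3]
        exact h1
    _ ≤ 4 * ∑ ρ ∈ R, c * (PS.filter fun ω => rep P ω = ρ).card :=
      Nat.mul_le_mul_left _ (Finset.sum_le_sum h4)
    _ = 4 * (c * PS.card) := by
      rw [← Finset.mul_sum, h5]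

end Pool.Agent.H429R4.MM
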