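import Pool.Agent.H429R4.MM.Final

/-!
# Algorithms with few products up to relabelings
-/

namespace Pool.Agent.H429R4.MM

open MvPolynomial Finset

variable {F : Type} [Field F]

/-- spans of known polynomials are preserved by maps of the variables -/
theorem rename_span {V V' G G' : Type} (f : V → V') (l r : G → MvPolynomial V F)
    (l' r' : G' → MvPolynomial V' F) (S : Set G) (S' : Set G') (φ : G → G')
    (hφ : ∀ g ∈ S, φ g ∈ S') (hl : ∀ g, l' (φ g) = rename f (l g))
    (hr : ∀ g, r' (φ g) = rename f (r g)) {P : MvPolynomial V F}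
    (hP : P ∈ Submodule.span F ({1} ∪ Set.range X ∪ {P | ∃ h ∈ S, P = l h * r h})) :
    rename f P ∈ Submodule.span F ({1} ∪ Set.range X ∪ {P | ∃ h ∈ S', P = l' h * r' h}) := by
  have h1 : Submodule.span F ({1} ∪ Set.range X ∪ {P | ∃ h ∈ S, P = l h * r h}) ≤
      (Submodule.span F ({1} ∪ Set.range X ∪ {P | ∃ h ∈ S', P = l' h * r' h})).comap
        (rename (R := F) f).toLinearMap := by
    rw [Submodule.span_le]
    rintro Q ((hQ | ⟨w, rfl⟩) | ⟨h, hh, rfl⟩)
    · rw [Set.mem_singleton_iff] at hQ
      subst hQ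
      rw [SetLike.mem_coe, Submodule.mem_comap, AlgHom.toLinearMap_apply, map_one]
      exact Submodule.subset_span (Or.inl (Or.inl rfl))
    · rw [SetLike.mem_coe, Submodule.mem_comap, AlgHom.toLinearMap_apply, rename_X]
      exact Submodule.subset_span (Or.inl (Or.inr ⟨f w, rfl⟩))
    · rw [SetLike.mem_coe, Submodule.mem_comap, AlgHom.toLinearMap_apply, map_mul, ← hl, ← hr]
      exact Submodule.subset_span (Or.inr ⟨φ h, hφ h hh, rfl⟩)
  exact h1 hP

/-! ### The school method -/

/-- The school method. -/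
noncomputable def school (M : Type) (F : Type) [Field F] : Algo (Va M) F (M × M × M) where
  left g := X (.inl (g.1, g.2.1))
  right g := X (.inr (g.2.1, g.2.2))
  rank _ := 0
  left_mem _ := Submodule.subset_span (Or.inl (Or.inr ⟨_, rfl⟩))
  right_mem _ := Submodule.subset_span (Or.inl (Or.inr ⟨_, rfl⟩))

theorem school_multiplies (M : Type) [Fintype M] : (school M F).Multiplies := by
  intro p q
  refine Submodule.sum_mem _ fun k _ => ?_
  exact Submodule.subset_span (Or.inr ⟨(p, k, q), rfl⟩)

theorem school_products (M : Type) [Fintype M] :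
    ((school M F).products (relabelings M)).ncard ≤ Fintype.card M ^ 3 := by
  classical
  have h1 : (school M F).products (relabelings M) ⊆ Set.range fun g : M × M × M =>
      s((school M F).left g, (school M F).right g) := by
    rintro _ ⟨f, ⟨π, ρ, σ, rfl⟩, ⟨p, k, q⟩, rfl⟩
    refine ⟨(π p, ρ k, σ q), ?_⟩
    simp [school, sand]
  refine (Set.ncard_le_ncard h1 (Set.finite_range _)).trans ?_
  rw [← Set.image_univ]
  refine (Set.ncard_image_le (Set.finite_univ)).trans ?_
  rw [Set.ncard_univ, Nat.card_eq_fintype_card, Fintype.card_prod, Fintype.card_prod]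
  exact le_of_eq (by ring)

/-! ### Algorithms from algorithms for the blocks -/

/-- the permutation of the index set given by a permutation of the blocks -/
def blockMap {r s : ℕ} (σ : Equiv.Perm (Fin r × ZMod 3)) : Ix r s Empty → Ix r s Empty
  | .inl (v, c, i) => .inl ((σ (v, c)).1, (σ (v, c)).2, i)
  | .inr z => .inr z

/-- the variables of the blocks -/
def embB {r s : ℕ} (b : (Fin r × ZMod 3) × (Fin r × ZMod 3) × (Fin r × ZMod 3)) :
    Va (Fin s) → Va (Ix r s Empty)
  | .inl (i, k) => .inl (.inl (b.1.1, b.1.2, i), .inl (b.2.1.1, b.2.1.2, k))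
  | .inr (k, j) => .inr (.inl (b.2.1.1, b.2.1.2, k), .inl (b.2.2.1, b.2.2.2, j))

/-- triples of blocks -/
abbrev BB (r : ℕ) : Type := (Fin r × ZMod 3) × (Fin r × ZMod 3) × (Fin r × ZMod 3)

/-- the left factors -/
noncomputable def bleft {s : ℕ} {G : Type} (r : ℕ) (C : Algo (Va (Fin s)) F G) (g : BB r × G) :
    MvPolynomial (Va (Ix r s Empty)) F := rename (embB g.1) (C.left g.2)

/-- the right factors -/
noncomputable def bright {s : ℕ} {G : Type} (r : ℕ) (C : Algo (Va (Fin s)) F G) (g : BB r × G) :
    MvPolynomial (Va (Ix r s Empty)) F := rename (embB g.1) (C.right g.2)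

theorem brename {s : ℕ} {G : Type} (r : ℕ) (C : Algo (Va (Fin s)) F G) (b : BB r) (S : Set G)
    (S' : Set (BB r × G)) (hS : ∀ g ∈ S, (b, g) ∈ S') {P : MvPolynomial (Va (Fin s)) F}
    (hP : P ∈ Submodule.span F
      ({1} ∪ Set.range X ∪ {P | ∃ h ∈ S, P = C.left h * C.right h})) :
    rename (embB b) P ∈ Submodule.span F
      ({1} ∪ Set.range X ∪ {P | ∃ h ∈ S', P = bleft r C h * bright r C h}) :=
  rename_span (embB b) C.left C.right (bleft r C) (bright r C) S S' (fun h => (b, h)) hS
    (fun _ => rfl) (fun _ => rfl) hP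

/-- The school method for the blocks, with the given algorithm for the products of blocks. -/
noncomputable def blockAlgo {s : ℕ} {G : Type} (r : ℕ) (C : Algo (Va (Fin s)) F G) :
    Algo (Va (Ix r s Empty)) F (BB r × G) where
  left := bleft r C
  right := bright r C
  rank g := C.rank g.2
  left_mem g := brename r C g.1 {h | C.rank h < C.rank g.2} {h | C.rank h.2 < C.rank g.2}
    (fun _ hh => hh) (C.left_mem g.2)
  right_mem g := brename r C g.1 {h | C.rank h < C.rank g.2} {h | C.rank h.2 < C.rank g.2}
    (fun _ hh => hh) (C.right_mem g.2)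

theorem blockAlgo_multiplies {s : ℕ} {G : Type} (r : ℕ) (C : Algo (Va (Fin s)) F G)
    (hC : C.Multiplies) : (blockAlgo r C).Multiplies := by
  rintro (⟨u, a, i⟩ | z) (⟨w, c, j⟩ | z')
  · have h1 : prodEntry F (M := Ix r s Empty) (.inl (u, a, i)) (.inl (w, c, j)) =
        ∑ v : Fin r × ZMod 3, rename (embB ((u, a), v, (w, c))) (prodEntry F i j) := by
      unfold prodEntry
      rw [Fintype.sum_sum_type, Finset.univ_eq_empty (α := Empty), Finset.sum_empty, add_zero,
        Fintype.sum_prod_type, Fintype.sum_prod_type]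
      refine Finset.sum_congr rfl fun v _ => ?_
      rw [Fintype.sum_prod_type]
      refine Finset.sum_congr rfl fun d _ => ?_
      rw [map_sum]
      refine Finset.sum_congr rfl fun k _ => ?_
      rw [map_mul, rename_X, rename_X]
      rfl
    rw [h1]
    refine Submodule.sum_mem _ fun v _ => ?_
    have h3 : {P | ∃ h ∈ (Set.univ : Set G), P = C.left h * C.right h} =
        {P | ∃ h, P = C.left h * C.right h} := by
      ext P
      simp
    have h4 : {P | ∃ h ∈ (Set.univ : Set (BB r × G)), P = bleft r C h * bright r C h} =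
        {P | ∃ h, P = bleft r C h * bright r C h} := by
      ext P
      simp
    have h2 := brename r C ((u, a), v, (w, c)) Set.univ Set.univ (fun _ _ => trivial)
      (P := prodEntry F i j) (by rw [h3]; exact hC i j)
    rw [h4] at h2
    exact h2
  · exact z'.elim
  · exact z.elim
  · exact z.elim

theorem blockAlgo_products {s : ℕ} {G : Type} [Fintype G] (r : ℕ) (C : Algo (Va (Fin s)) F G) :
    ((blockAlgo r C).products {f | ∃ π ρ σ : Equiv.Perm (Fin r × ZMod 3),
      f = sand (blockMap π) (blockMap ρ) (blockMap σ)}).ncard ≤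
      (3 * r) ^ 3 * Fintype.card G := by
  classical
  have h1 : (blockAlgo r C).products {f | ∃ π ρ σ : Equiv.Perm (Fin r × ZMod 3),
      f = sand (blockMap π) (blockMap ρ) (blockMap σ)} ⊆
      Set.range fun g : BB r × G => s(bleft r C g, bright r C g) := by
    rintro _ ⟨f, ⟨π, ρ, σ, rfl⟩, ⟨⟨u, v, w⟩, g⟩, rfl⟩
    refine ⟨((π u, ρ v, σ w), g), ?_⟩
    have h2 : (sand (blockMap π) (blockMap ρ) (blockMap σ) ∘ embB (u, v, w) :
        Va (Fin s) → Va (Ix r s Empty)) = embB (π u, ρ v, σ w) := by
      funext x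
      rcases x with ⟨i, k⟩ | ⟨k, j⟩ <;> rfl
    simp only [blockAlgo, bleft, bright, rename_rename, h2]
  refine (Set.ncard_le_ncard h1 (Set.finite_range _)).trans ?_
  rw [← Set.image_univ]
  refine (Set.ncard_image_le (Set.finite_univ)).trans ?_
  rw [Set.ncard_univ, Nat.card_eq_fintype_card]
  simp only [Fintype.card_prod, Fintype.card_fin, ZMod.card]
  exact le_of_eq (by ring)

end Pool.Agent.H429R4.MM
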